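import Pool.Agent.H97.PR.Targets

/-! Row CLS (MP_c62aed_lc, resolution over parities): the closure of a hyperplane. -/

set_option autoImplicit false

namespace Pool.Agent.H58.PR

open Finset Pool.Agent.H97.PR

theorem pf_CLS (hRKB : T_RKB) : T_CLS := by
  classical
  intro n N blk γ V V' Cl hVCl hrk hV'V hdm
  have hfive : ∀ J : Finset (Fin N), Disjoint J Cl → γ * J.card ≤ rk blk V' J + 1 := fun J hJ =>
    (hrk J hJ).trans ((hRKB n N blk V V' J J).2.2.2.2.1 hV'V hdm)
  let S : Finset (Finset (Fin N)) := univ.filter (fun J => Disjoint J Cl)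
  have hS : S.Nonempty := ⟨∅, mem_filter.2 ⟨mem_univ _, disjoint_empty_left _⟩⟩
  obtain ⟨J₁, hJ₁, hmin⟩ := exists_min_image S
    (fun J => (rk blk V' J : ℤ) - ((γ * J.card : ℕ) : ℤ)) hS
  have hdis : Disjoint J₁ Cl := (mem_filter.1 hJ₁).2
  have hmin' : ∀ J : Finset (Fin N), Disjoint J Cl →
      (rk blk V' J₁ : ℤ) - ((γ * J₁.card : ℕ) : ℤ) ≤ (rk blk V' J : ℤ) - ((γ * J.card : ℕ) : ℤ) :=
    fun J hJ => hmin J (mem_filter.2 ⟨mem_univ _, hJ⟩)
  by_cases hpos : γ * J₁.card ≤ rk blk V' J₁
  · left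
    intro J hJ
    have h1 := hmin' J hJ
    omega
  · right
    have h5 := hfive J₁ hdis
    have heq : rk blk V' J₁ + 1 = γ * J₁.card := by omega
    have h0 : rk blk V' ∅ = 0 := (hRKB n N blk V' V' ∅ ∅).2.1
    have hne : J₁.Nonempty := by
      rw [nonempty_iff_ne_empty]
      rintro rfl
      rw [card_empty, mul_zero] at heq
      omega
    refine ⟨J₁, hne, hdis, ?_, ?_, ?_, ?_⟩
    · intro x hx i hi
      have hx1 : x ∈ V' := (Submodule.mem_inf.1 hx).1
      have hx2 : x ∈ zr blk J₁ := (Submodule.mem_inf.1 hx).2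
      rcases mem_union.1 hi with h | h
      · exact hVCl (hV'V hx1) i h
      · exact hx2 i h
    · intro J hJ
      have hJ1 : Disjoint J Cl := disjoint_of_subset_right subset_union_left hJ
      have hJ2 : Disjoint J₁ J := (disjoint_of_subset_right subset_union_right hJ).symm
      have h6 := (hRKB n N blk V' V' J J₁).2.2.2.2.2.1
      have h7 := hmin' (J₁ ∪ J) (disjoint_union_left.2 ⟨hdis, hJ1⟩)
      rw [card_union_of_disjoint hJ2] at h7
      have h8 : γ * (J₁.card + J.card) = γ * J₁.card + γ * J.card := by ring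
      rw [h8] at h7
      push_cast at h7
      omega
    · have h1 := (hRKB n N blk V' V' J₁ J₁).1
      omega
    · intro J' hJ'
      exact hfive J' (disjoint_of_subset_left hJ' hdis)

end Pool.Agent.H58.PR
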