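import Pool.Agent.H97.PR.Targets

/-! Row GEX (MP_c62aed_lc, resolution over parities): good gadgets exist. -/

set_option autoImplicit false

namespace Pool.Agent.H58.PR

open Finset Pool.Agent.H97.PR

theorem gen {n : ℕ} (V : Submodule (ZMod 2) (E n)) :
    ∃ u : Fin n → E n, Submodule.span (ZMod 2) (Set.range u) = V := by
  have hle : Module.finrank (ZMod 2) V ≤ n := by
    have := Submodule.finrank_le V
    rwa [Module.finrank_fin_fun] at this
  let b := Module.finBasis (ZMod 2) V
  refine ⟨fun i => if h : i.1 < Module.finrank (ZMod 2) V then (b ⟨i.1, h⟩ : E n) else 0, ?_⟩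
  apply le_antisymm
  · rw [Submodule.span_le]
    rintro _ ⟨i, rfl⟩
    dsimp only
    split_ifs with h
    · exact (b ⟨i.1, h⟩).2
    · exact V.zero_mem
  · intro x hx
    have h1 := congrArg Subtype.val (b.sum_repr ⟨x, hx⟩)
    rw [AddSubmonoidClass.coe_finsetSum] at h1
    simp only at h1
    rw [← h1]
    refine Submodule.sum_mem _ fun i _ => ?_
    refine Submodule.smul_mem _ _ (Submodule.subset_span ⟨⟨i.1, lt_of_lt_of_le i.2 hle⟩, ?_⟩)
    simp only [i.2, dite_true]

theorem pf_GEX (hGDA : T_GDA) (hRKC : T_RKC) : T_GEX := by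
  classical
  intro n N blk γ hn hN hγ
  by_contra hcon
  push Not at hcon
  -- the failures
  let Q : Type := (Fin n → E n) × E n × Finset (Fin N) × (Fin N → Bool)
  let V : Q → Submodule (ZMod 2) (E n) := fun q => Submodule.span (ZMod 2) (Set.range q.1)
  let Rk : Q → Prop := fun q => ∀ J' : Finset (Fin N), J' ⊆ q.2.2.1 → J'.Nonempty →
    γ * J'.card ≤ rk blk (V q) J' + 1
  let Fl : Q → Gad blk → Prop := fun q g => ¬ 2 ^ dm (V q) ≤
      2 ^ (q.2.2.1.card + 1) * cnt fun x => x - q.2.1 ∈ V q ∧ ∀ v ∈ q.2.2.1, gv g x v = q.2.2.2 v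
  let Bad : Q → Finset (Gad blk) := fun q => univ.filter (fun g => Rk q ∧ Fl q g)
  have hcov : (univ : Finset (Gad blk)) ⊆ (univ : Finset Q).biUnion Bad := by
    intro g _
    have h1 := hcon g
    unfold Gd at h1
    push Not at h1
    obtain ⟨W, a, J, z, h2, h3⟩ := h1
    obtain ⟨u, hu⟩ := gen W
    refine mem_biUnion.2 ⟨(u, a, J, z), mem_univ _, mem_filter.2 ⟨mem_univ _, ?_, ?_⟩⟩
    · intro J' hJ' hne
      show γ * J'.card ≤ rk blk (Submodule.span (ZMod 2) (Set.range u)) J' + 1
      rw [hu]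
      exact h2 J' hJ' hne
    · show ¬ 2 ^ dm (Submodule.span (ZMod 2) (Set.range u)) ≤ 2 ^ (J.card + 1) *
        cnt fun x => x - a ∈ Submodule.span (ZMod 2) (Set.range u) ∧ ∀ v ∈ J, gv g x v = z v
      rw [hu]
      exact not_le.2 h3
  have hn0 : (2 : ℝ) ≤ n := by exact_mod_cast hn
  have hG0 : (0 : ℝ) < Fintype.card (Gad blk) := by
    exact_mod_cast Fintype.card_pos
  have hbad : ∀ q : Q, ((Bad q).card : ℝ) ≤
      Fintype.card (Gad blk) * Real.exp (-(2 * (n : ℝ) ^ 2)) := by
    intro q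
    by_cases hR : Rk q
    · by_cases hJ : q.2.2.1.Nonempty
      · have hJc : q.2.2.1.card ≤ N := by
          have := card_le_univ q.2.2.1
          rwa [Fintype.card_fin] at this
        have hJn : q.2.2.1.card ≤ n := hJc.trans hN
        have hJγ : q.2.2.1.card ≤ 2 ^ γ := by
          refine (hJn.trans ?_).trans hγ
          have hn3 : n ≤ n ^ 3 := Nat.le_self_pow (by norm_num) n
          omega
        have h1 := hGDA n N blk γ (V q) q.2.1 q.2.2.1 q.2.2.2 hJ hJγ hR
        have h2 : Bad q ⊆ univ.filter fun g : Gad blk => ¬ 2 ^ dm (V q) ≤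
            2 ^ (q.2.2.1.card + 1) *
              cnt fun x => x - q.2.1 ∈ V q ∧ ∀ v ∈ q.2.2.1, gv g x v = q.2.2.2 v := by
          intro g hg
          exact mem_filter.2 ⟨mem_univ _, ((mem_filter.1 hg).2).2⟩
        have h3 : ((Bad q).card : ℝ) ≤ _ := le_trans (by exact_mod_cast card_le_card h2) h1
        refine h3.trans (mul_le_mul_of_nonneg_left (Real.exp_le_exp.2 (neg_le_neg ?_)) hG0.le)
        have hc0 : (0 : ℝ) < q.2.2.1.card := by exact_mod_cast card_pos.2 hJ
        have hcn : (q.2.2.1.card : ℝ) ≤ n := by exact_mod_cast hJn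
        have hγ' : 128 * (n : ℝ) ^ 3 ≤ 2 ^ γ := by exact_mod_cast hγ
        rw [le_div_iff₀ (by positivity)]
        have h4 : 2 * (n : ℝ) ^ 2 * (64 * q.2.2.1.card) ≤ 2 * (n : ℝ) ^ 2 * (64 * n) :=
          mul_le_mul_of_nonneg_left (by linarith) (by positivity)
        refine h4.trans (le_trans (le_of_eq ?_) hγ')
        ring
      · have hempty : Bad q = ∅ := by
          rw [eq_empty_iff_forall_notMem]
          intro g hg
          have h1 := ((mem_filter.1 hg).2).2
          apply h1
          have hJ0 : q.2.2.1 = ∅ := not_nonempty_iff_eq_empty.1 hJ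
          rw [hJ0]
          have h2 : (fun x : E n => x - q.2.1 ∈ V q ∧ ∀ v ∈ (∅ : Finset (Fin N)),
              gv g x v = q.2.2.2 v) = fun x => x ∈ pc q.2.1 (V q) := by
            funext x
            simp [pc]
          rw [h2, (hRKC n N blk (V q) ∅).2.1 q.2.1]
          simp
        rw [hempty]
        simp only [card_empty, Nat.cast_zero]
        positivity
    · have hempty : Bad q = ∅ := by
        rw [eq_empty_iff_forall_notMem]
        intro g hg
        exact hR ((mem_filter.1 hg).2).1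
      rw [hempty]
      simp only [card_empty, Nat.cast_zero]
      positivity
  have h1 : (Fintype.card (Gad blk) : ℝ) ≤ ∑ q : Q, ((Bad q).card : ℝ) := by
    have h2 := (card_le_card hcov).trans card_biUnion_le
    rw [card_univ] at h2
    exact_mod_cast h2
  have h2 := h1.trans (sum_le_sum fun q _ => hbad q)
  rw [sum_const, nsmul_eq_mul, card_univ] at h2
  have hQ : Fintype.card Q = 2 ^ (n * n + n + N + N) := by
    show Fintype.card ((Fin n → E n) × E n × Finset (Fin N) × (Fin N → Bool)) = _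
    rw [Fintype.card_prod, Fintype.card_prod, Fintype.card_prod, Fintype.card_fun,
      Fintype.card_fun, Fintype.card_finset, Fintype.card_fun, Fintype.card_bool, ZMod.card,
      Fintype.card_fin, Fintype.card_fin, ← pow_mul, ← pow_add, ← pow_add, ← pow_add]
    congr 1
    ring
  have hQ2 : (Fintype.card Q : ℝ) ≤ Real.exp (Real.log 2 * (n ^ 2 + 3 * n)) := by
    rw [hQ]
    have h3 : (2 : ℝ) ^ (n * n + n + N + N) ≤ 2 ^ (n * n + n + n + n) :=
      pow_le_pow_right₀ (by norm_num) (by omega)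
    push_cast
    refine h3.trans (le_of_eq ?_)
    rw [← Real.rpow_natCast, Real.rpow_def_of_pos (by norm_num)]
    congr 1
    push_cast
    ring
  have h3 : Real.exp (Real.log 2 * (n ^ 2 + 3 * n)) * Real.exp (-(2 * (n : ℝ) ^ 2)) < 1 := by
    rw [← Real.exp_add, Real.exp_lt_one_iff]
    have h4 : Real.log 2 < 0.6931471808 := Real.log_two_lt_d9
    have h5 : 0 < Real.log 2 := Real.log_pos (by norm_num)
    have h6 : (n : ℝ) ^ 2 + 3 * n ≤ 5 / 2 * n ^ 2 := by nlinarith
    have h7 : Real.log 2 * (n ^ 2 + 3 * n) ≤ Real.log 2 * (5 / 2 * n ^ 2) :=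
      mul_le_mul_of_nonneg_left h6 h5.le
    have h8 : 0 < (n : ℝ) ^ 2 := by positivity
    nlinarith
  have h4 : (Fintype.card Q : ℝ) * (Fintype.card (Gad blk) * Real.exp (-(2 * (n : ℝ) ^ 2))) <
      Fintype.card (Gad blk) := by
    calc (Fintype.card Q : ℝ) * (Fintype.card (Gad blk) * Real.exp (-(2 * (n : ℝ) ^ 2)))
        ≤ Real.exp (Real.log 2 * (n ^ 2 + 3 * n)) *
            (Fintype.card (Gad blk) * Real.exp (-(2 * (n : ℝ) ^ 2))) :=
          mul_le_mul_of_nonneg_right hQ2 (by positivity)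
      _ = (Real.exp (Real.log 2 * (n ^ 2 + 3 * n)) * Real.exp (-(2 * (n : ℝ) ^ 2))) *
            Fintype.card (Gad blk) := by ring
      _ < 1 * Fintype.card (Gad blk) := mul_lt_mul_of_pos_right h3 hG0
      _ = Fintype.card (Gad blk) := one_mul _
  exact absurd h2 (not_le.2 h4)

end Pool.Agent.H58.PR
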