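import Pool.Agent.H97.PR.Targets

/-! Row GMM (MP_c62aed_lc, resolution over parities): pairs of points which agree on a block. -/

set_option autoImplicit false

namespace Pool.Agent.H58.PR

open Finset Pool.Agent.H97.PR

theorem pow_sub_le {t : ℝ} {c : ℕ} (ht : 0 ≤ t) (h : c * t ≤ 1) : (1 + t) ^ c - 1 ≤ 2 * (c * t) := by
  have h1 : (1 + t) ^ c ≤ Real.exp (c * t) := by
    rw [Real.exp_nat_mul]
    refine pow_le_pow_left₀ (by linarith) ?_ c
    rw [add_comm]
    exact Real.add_one_le_exp t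
  have h0 : 0 ≤ (c : ℝ) * t := by positivity
  have h2 : |Real.exp (c * t) - 1 - c * t| ≤ (c * t) ^ 2 :=
    Real.abs_exp_sub_one_sub_id_le (by rw [abs_of_nonneg h0]; exact h)
  have h3 := (abs_le.1 h2).2
  nlinarith

open Classical in
theorem pf_GMM (hRKB : T_RKB) (hRKC : T_RKC) : T_GMM := by
  intro n N blk γ V J hJ hrk
  have h2γ : (0 : ℝ) < 2 ^ γ := by positivity
  set t : ℝ := 1 / 2 ^ γ with ht
  have ht0 : 0 ≤ t := by positivity
  set S : Finset (Finset (Fin N)) := J.powerset.erase ∅ with hS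
  -- a point
  have h1 : ∀ w ∈ univ.filter (fun w : E n => w ∈ V ∧ ∃ v ∈ J, w ∈ zr blk {v}),
      (2 : ℝ) ^ (J.filter fun v => w ∈ zr blk {v}).card ≤
        ∑ J' ∈ S, if w ∈ V ⊓ zr blk J' then (2 : ℝ) else 0 := by
    intro w hw
    obtain ⟨hwV, v, hvJ, hwv⟩ := (mem_filter.1 hw).2
    set Ew := J.filter fun v => w ∈ zr blk {v} with hEw
    have hne : 1 ≤ Ew.card := card_pos.2 ⟨v, mem_filter.2 ⟨hvJ, hwv⟩⟩
    have hsub : Ew.powerset.erase ∅ ⊆ S.filter (fun J' => w ∈ V ⊓ zr blk J') := by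
      intro J' hJ'
      obtain ⟨hJ'1, hJ'2⟩ := mem_erase.1 hJ'
      have hJ'3 := mem_powerset.1 hJ'2
      refine mem_filter.2 ⟨mem_erase.2 ⟨hJ'1, mem_powerset.2 (hJ'3.trans (filter_subset _ _))⟩, ?_⟩
      refine Submodule.mem_inf.2 ⟨hwV, ?_⟩
      intro i hi
      exact (mem_filter.1 (hJ'3 hi)).2 i (mem_singleton_self _)
    have hcard : (Ew.powerset.erase ∅).card = 2 ^ Ew.card - 1 := by
      rw [card_erase_of_mem (empty_mem_powerset _), card_powerset]
    rw [← sum_filter, sum_const, nsmul_eq_mul]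
    have h2 : (2 : ℝ) ^ Ew.card ≤ ((Ew.powerset.erase ∅).card : ℝ) * 2 := by
      rw [hcard]
      have h3 : 2 ^ Ew.card ≤ (2 ^ Ew.card - 1) * 2 := by
        have h4 : 2 ≤ 2 ^ Ew.card := by
          calc 2 = 2 ^ 1 := by norm_num
            _ ≤ 2 ^ Ew.card := Nat.pow_le_pow_right (by norm_num) hne
        omega
      exact_mod_cast h3
    refine h2.trans ?_
    refine mul_le_mul_of_nonneg_right ?_ (by norm_num)
    exact_mod_cast card_le_card hsub
  refine (sum_le_sum h1).trans ?_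
  rw [sum_comm]
  -- a set of blocks
  have h2 : ∀ J' ∈ S, ∑ w ∈ univ.filter (fun w : E n => w ∈ V ∧ ∃ v ∈ J, w ∈ zr blk {v}),
      (if w ∈ V ⊓ zr blk J' then (2 : ℝ) else 0) ≤ 4 * 2 ^ dm V * t ^ J'.card := by
    intro J' hJ'
    obtain ⟨hJ'1, hJ'2⟩ := mem_erase.1 hJ'
    have hJ'3 := mem_powerset.1 hJ'2
    have h3 : ∑ w ∈ univ.filter (fun w : E n => w ∈ V ∧ ∃ v ∈ J, w ∈ zr blk {v}),
        (if w ∈ V ⊓ zr blk J' then (2 : ℝ) else 0) ≤
        ∑ w : E n, (if w ∈ V ⊓ zr blk J' then (2 : ℝ) else 0) := by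
      refine sum_le_sum_of_subset_of_nonneg (filter_subset _ _) fun w _ _ => ?_
      split_ifs <;> norm_num
    refine h3.trans ?_
    rw [← sum_filter, sum_const, nsmul_eq_mul]
    have h4 : (univ.filter (fun w : E n => w ∈ V ⊓ zr blk J')).card = 2 ^ dm (V ⊓ zr blk J') :=
      (hRKC n N blk (V ⊓ zr blk J') J').1
    rw [h4]
    have h5 := (hRKB n N blk V V J' J').1
    have h6 := hrk J' hJ'3 (nonempty_iff_ne_empty.2 hJ'1)
    have h7 : dm (V ⊓ zr blk J') + γ * J'.card ≤ dm V + 1 := by omega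
    have h8 : (2 : ℝ) ^ (dm (V ⊓ zr blk J') + γ * J'.card) ≤ 2 ^ (dm V + 1) :=
      pow_le_pow_right₀ (by norm_num) h7
    rw [pow_add, pow_mul, pow_add, pow_one] at h8
    rw [ht, div_pow, one_pow, mul_one_div, le_div_iff₀ (by positivity)]
    push_cast
    nlinarith
  refine (sum_le_sum h2).trans ?_
  rw [← mul_sum]
  have h3 : ∑ J' ∈ S, t ^ J'.card = (1 + t) ^ J.card - 1 := by
    have h4 := sum_pow_mul_eq_add_pow t 1 J
    simp only [one_pow, mul_one] at h4
    have h5 : ∑ J' ∈ J.powerset, t ^ J'.card = (1 + t) ^ J.card := by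
      rw [add_comm]
      exact h4
    have h6 := sum_erase_add J.powerset (fun J' : Finset (Fin N) => t ^ J'.card)
      (empty_mem_powerset J)
    simp only [card_empty, pow_zero] at h6
    rw [hS]
    linarith
  rw [h3]
  have hJt : (J.card : ℝ) * t ≤ 1 := by
    rw [ht, mul_one_div, div_le_one h2γ]
    exact_mod_cast hJ
  have h4 := pow_sub_le ht0 hJt
  calc 4 * 2 ^ dm V * ((1 + t) ^ J.card - 1) ≤ 4 * 2 ^ dm V * (2 * (J.card * t)) :=
        mul_le_mul_of_nonneg_left h4 (by positivity)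
    _ = 8 * 2 ^ dm V * (J.card : ℝ) / 2 ^ γ := by
      rw [ht]
      ring

end Pool.Agent.H58.PR
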